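import Pool.Agent.Helper26.SK.G.Defs

/-!
# Values of the rings around poles, general `d`
-/

namespace Pool.Agent.Helper26.SK.G

open Str Piece

variable {d : ℕ} {a : ℂ}

namespace RingAux

theorem act_crS (i : ℕ) (o : Bool) (c : CS d) (s : List (CS d)) (K : Cont d) :
    act a (cr (i + 1) o) (c :: s) K = act a (cr i o) s (fun t => K (c :: t)) :=
  act_shift_one_cons (cr i o) c s K

theorem ring_shift (j p : ℕ) (u : Bool) (k : ℕ) :
    ring j p u k = (ring 0 p u k).map (shift j) := by
  simp only [ring, List.map_append, List.map_map, List.map_cons, List.map_nil]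
  have h : ∀ i, cr (j + 1 + i) true = (shift j ∘ fun i => cr (0 + 1 + i) true) i := fun i => by
    simp only [Function.comp, Piece.shift]
    congr 1
    omega
  have h1 : cup j u k = shift j (cup 0 u k) := by simp [Piece.shift]
  have h2 : cap j = shift j (cap 0) := by simp [Piece.shift]
  rw [h1, h2, List.map_congr_left (fun i _ => h i), List.map_congr_left (fun i _ => h i)]

/-- the coefficient of a passage behind a pole -/
theorem cf_back (u : Bool) (x : Fin d → ℂ) (hx : ∏ i, x i = 1) (S : Finset (Fin d)) :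
    cf a true (CS.pole x hx) (CS.web (!u) S) = ∏ i ∈ S, (if u then x i else (x i)⁻¹) := by
  cases u
  · simp [cf, Finset.prod_inv_distrib]
  · simp [cf]

theorem cf_front (u : Bool) (x : Fin d → ℂ) (hx : ∏ i, x i = 1) (S : Finset (Fin d)) :
    cf a true (CS.web u S) (CS.pole x hx) = 1 := by
  simp [cf]

theorem ring1 (x : Fin d → ℂ) (hx : ∏ i, x i = 1) (r : List (CS d)) (u : Bool) (k : ℕ)
    (K : Cont d) : actW a (ring 0 1 u k) (CS.pole x hx :: r) K =
      kap d (a ^ d) k * ∑ S ∈ Finset.powersetCard k (Finset.univ : Finset (Fin d)),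
        (∏ i ∈ S, (if u then x i else (x i)⁻¹)) * K (CS.pole x hx :: r) := by
  have h : ring 0 1 u k = [cup 0 u k, cr (0 + 1) true, cr (0 + 1) true, cap 0] := rfl
  rw [h]
  simp only [actW, act_cup0, act_crS, act_cr0, act_cap0, cf_front, cf_back, ↓reduceIte, one_mul]
  rw [Finset.mul_sum]
  refine Finset.sum_congr rfl fun S hS => ?_
  rw [(Finset.mem_powersetCard.mp hS).2]
  cases u
  · simp only [Bool.false_eq_true, ↓reduceIte, one_mul]
  · simp only [Bool.false_eq_true, ↓reduceIte, one_mul]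
    ring

theorem ring2 (x y : Fin d → ℂ) (hx : ∏ i, x i = 1) (hy : ∏ i, y i = 1) (r : List (CS d))
    (u : Bool) (k : ℕ) (K : Cont d) :
    actW a (ring 0 2 u k) (CS.pole x hx :: CS.pole y hy :: r) K =
      kap d (a ^ d) k * ∑ S ∈ Finset.powersetCard k (Finset.univ : Finset (Fin d)),
        ((∏ i ∈ S, (if u then x i else (x i)⁻¹)) * (∏ i ∈ S, (if u then y i else (y i)⁻¹))) *
          K (CS.pole x hx :: CS.pole y hy :: r) := by
  have h : ring 0 2 u k = [cup 0 u k, cr (0 + 1) true, cr (0 + 1 + 1) true,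
    cr (0 + 1 + 1) true, cr (0 + 1) true, cap 0] := rfl
  rw [h]
  simp only [actW, act_cup0, act_crS, act_cr0, act_cap0, cf_front, cf_back, ↓reduceIte, one_mul]
  rw [Finset.mul_sum]
  refine Finset.sum_congr rfl fun S hS => ?_
  rw [(Finset.mem_powersetCard.mp hS).2]
  cases u <;> (simp only [Bool.false_eq_true, ↓reduceIte, one_mul]; ring)

theorem ring3 (x y z : Fin d → ℂ) (hx : ∏ i, x i = 1) (hy : ∏ i, y i = 1) (hz : ∏ i, z i = 1)
    (r : List (CS d)) (u : Bool) (k : ℕ) (K : Cont d) :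
    actW a (ring 0 3 u k) (CS.pole x hx :: CS.pole y hy :: CS.pole z hz :: r) K =
      kap d (a ^ d) k * ∑ S ∈ Finset.powersetCard k (Finset.univ : Finset (Fin d)),
        ((∏ i ∈ S, (if u then x i else (x i)⁻¹)) * (∏ i ∈ S, (if u then y i else (y i)⁻¹)) *
          (∏ i ∈ S, (if u then z i else (z i)⁻¹))) *
          K (CS.pole x hx :: CS.pole y hy :: CS.pole z hz :: r) := by
  have h : ring 0 3 u k = [cup 0 u k, cr (0 + 1) true, cr (0 + 1 + 1) true,
    cr (0 + 1 + 1 + 1) true, cr (0 + 1 + 1 + 1) true,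
    cr (0 + 1 + 1) true, cr (0 + 1) true, cap 0] := rfl
  rw [h]
  simp only [actW, act_cup0, act_crS, act_cr0, act_cap0, cf_front, cf_back, ↓reduceIte, one_mul]
  rw [Finset.mul_sum]
  refine Finset.sum_congr rfl fun S hS => ?_
  rw [(Finset.mem_powersetCard.mp hS).2]
  cases u <;> (simp only [Bool.false_eq_true, ↓reduceIte, one_mul]; ring)

/-- elementary symmetric sums of functions multiplied by `ω` by a rotation -/
theorem esymm_zero {f : Fin d → ℂ} {ω : ℂ} (σ : Equiv.Perm (Fin d)) (hσ : ∀ i, f (σ i) = ω * f i)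
    {k : ℕ} (hk : ω ^ k ≠ 1) :
    ∑ S ∈ Finset.powersetCard k (Finset.univ : Finset (Fin d)), ∏ i ∈ S, f i = 0 := by
  set e := ∑ S ∈ Finset.powersetCard k (Finset.univ : Finset (Fin d)), ∏ i ∈ S, f i with he
  have h1 : e = ω ^ k * e := by
    have h2 : e = ∑ S ∈ Finset.powersetCard k (Finset.univ : Finset (Fin d)),
        ∏ i ∈ S.map σ.toEmbedding, f i := by
      rw [he]
      symm
      refine Finset.sum_nbij' (fun S => S.map σ.toEmbedding) (fun S => S.map σ.symm.toEmbedding)
        ?_ ?_ ?_ ?_ ?_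
      · intro S hS
        rw [Finset.mem_powersetCard] at hS ⊢
        exact ⟨Finset.subset_univ _, by rw [Finset.card_map]; exact hS.2⟩
      · intro S hS
        rw [Finset.mem_powersetCard] at hS ⊢
        exact ⟨Finset.subset_univ _, by rw [Finset.card_map]; exact hS.2⟩
      · intro S _
        ext i
        simp
      · intro S _
        ext i
        simp
      · intro S _
        rfl
    conv_lhs => rw [h2]
    rw [he, Finset.mul_sum]
    refine Finset.sum_congr rfl fun S hS => ?_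
    rw [Finset.prod_map]
    simp only [Equiv.coe_toEmbedding, hσ]
    rw [Finset.prod_mul_distrib, Finset.prod_const, (Finset.mem_powersetCard.mp hS).2]
  have h3 : (1 - ω ^ k) * e = 0 := by linear_combination h1
  exact (mul_eq_zero.mp h3).resolve_left (sub_ne_zero.mpr (Ne.symm hk))

end RingAux

open RingAux

theorem ev_ring_inner {x y z : Fin d → ℂ} (hx : ∏ i, x i = 1) (hy : ∏ i, y i = 1)
    (hz : ∏ i, z i = 1) (hd : (a ^ d) ^ 2 = 1) (u : Bool) (k j : ℕ) (hj : j < 3) :
    ev a [CS.pole x hx, CS.pole y hy, CS.pole z hz] (ring j 1 u k) =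
      kap d (a ^ d) k * ∑ S ∈ Finset.powersetCard k (Finset.univ : Finset (Fin d)),
        ∏ i ∈ S, (if u then ![x, y, z] ⟨j, hj⟩ i else (![x, y, z] ⟨j, hj⟩ i)⁻¹) := by
  rw [ring_shift]
  unfold ev
  interval_cases j
  · have := actW_shift (a := a) (ring 0 1 u k) [] [CS.pole x hx, CS.pole y hy, CS.pole z hz]
      (fun _ => 1)
    simp only [List.length_nil, List.nil_append] at this
    rw [this, ring1]
    simp
  · have := actW_shift (a := a) (ring 0 1 u k) [CS.pole x hx] [CS.pole y hy, CS.pole z hz]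
      (fun _ => 1)
    simp only [List.length_cons, List.length_nil, zero_add, List.cons_append,
      List.nil_append] at this
    rw [this, ring1]
    simp
  · have := actW_shift (a := a) (ring 0 1 u k) [CS.pole x hx, CS.pole y hy] [CS.pole z hz]
      (fun _ => 1)
    simp only [List.length_cons, List.length_nil, zero_add, List.cons_append,
      List.nil_append, Nat.reduceAdd] at this
    rw [this, ring1]
    simp

theorem ev_ring_outer {x y z : Fin d → ℂ} (hx : ∏ i, x i = 1) (hy : ∏ i, y i = 1)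
    (hz : ∏ i, z i = 1) (hd : (a ^ d) ^ 2 = 1) (u : Bool) (k : ℕ) :
    ev a [CS.pole x hx, CS.pole y hy, CS.pole z hz] (ring 0 3 u k) =
      kap d (a ^ d) k * ∑ S ∈ Finset.powersetCard k (Finset.univ : Finset (Fin d)),
        ∏ i ∈ S, (if u then x i * y i * z i else (x i * y i * z i)⁻¹) := by
  unfold ev
  rw [ring3]
  congr 1
  refine Finset.sum_congr rfl fun S _ => ?_
  rw [mul_one, ← Finset.prod_mul_distrib, ← Finset.prod_mul_distrib]
  refine Finset.prod_congr rfl fun i _ => ?_
  cases u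
  · simp only [Bool.false_eq_true, ↓reduceIte, mul_inv]
  · simp only [↓reduceIte]

theorem ev_ring_two {x y z : Fin d → ℂ} (hx : ∏ i, x i = 1) (hy : ∏ i, y i = 1)
    (hz : ∏ i, z i = 1) (hd : (a ^ d) ^ 2 = 1) (u : Bool) (k : ℕ) :
    ev a [CS.pole x hx, CS.pole y hy, CS.pole z hz] (ring 0 2 u k) =
      kap d (a ^ d) k * ∑ S ∈ Finset.powersetCard k (Finset.univ : Finset (Fin d)),
        ∏ i ∈ S, (if u then x i * y i else (x i * y i)⁻¹) := by
  unfold ev
  rw [ring2]
  congr 1
  refine Finset.sum_congr rfl fun S _ => ?_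
  rw [mul_one, ← Finset.prod_mul_distrib]
  refine Finset.prod_congr rfl fun i _ => ?_
  cases u
  · simp only [Bool.false_eq_true, ↓reduceIte, mul_inv]
  · simp only [↓reduceIte]

theorem exists_diag (hd : 0 < d) : ∃ x : Fin d → ℂ, ∏ i, x i = 1 ∧
    ∀ c : ℂ, ∀ k, 0 < k → k < d →
      (∑ S ∈ Finset.powersetCard k (Finset.univ : Finset (Fin d)), ∏ i ∈ S, (c * x i) = 0) ∧
      (∑ S ∈ Finset.powersetCard k (Finset.univ : Finset (Fin d)), ∏ i ∈ S, (c * x i)⁻¹ = 0) := by
  obtain ⟨n, rfl⟩ : ∃ n, d = n + 1 := ⟨d - 1, by omega⟩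
  set ω : ℂ := Complex.exp (2 * Real.pi * Complex.I / ((n + 1 : ℕ) : ℂ)) with hω
  have hprim : IsPrimitiveRoot ω (n + 1) := Complex.isPrimitiveRoot_exp (n + 1) (by omega)
  have hω0 : ω ≠ 0 := Complex.exp_ne_zero _
  obtain ⟨l, hl⟩ := IsAlgClosed.exists_pow_nat_eq
    ((ω ^ (∑ i : Fin (n + 1), i.val))⁻¹) (n := n + 1) (by omega)
  have hrot : ∀ i : Fin (n + 1), ω ^ (finRotate (n + 1) i).val = ω * ω ^ i.val := by
    intro i
    rw [finRotate_apply, Fin.val_add, ← pow_succ']
    rw [← pow_eq_pow_mod _ hprim.pow_eq_one]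
    rcases Nat.eq_zero_or_pos n with h0 | h0
    · subst h0
      have : ω = 1 := by simpa using hprim.pow_eq_one
      rw [this, one_pow, one_pow]
    · have : ((1 : Fin (n + 1)) : ℕ) = 1 := by
        rw [Fin.val_one']
        exact Nat.mod_eq_of_lt (by omega)
      rw [this]
  refine ⟨fun i => l * ω ^ i.val, ?_, ?_⟩
  · rw [Finset.prod_mul_distrib, Finset.prod_const, Finset.prod_pow_eq_pow_sum,
      Finset.card_univ, Fintype.card_fin, hl, inv_mul_cancel₀ (pow_ne_zero _ hω0)]
  · intro c k hk0 hkd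
    have hk : ω ^ k ≠ 1 := hprim.pow_ne_one_of_pos_of_lt (by omega) hkd
    constructor
    · refine esymm_zero (ω := ω) (finRotate (n + 1)) (fun i => ?_) hk
      change c * (l * ω ^ (finRotate (n + 1) i).val) = ω * (c * (l * ω ^ i.val))
      rw [hrot]; ring
    · refine esymm_zero (ω := ω⁻¹) (finRotate (n + 1)) (fun i => ?_) ?_
      · change (c * (l * ω ^ (finRotate (n + 1) i).val))⁻¹ = ω⁻¹ * (c * (l * ω ^ i.val))⁻¹
        rw [hrot]
        simp only [mul_inv]
        ring
      · rw [inv_pow]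
        intro h
        exact hk (inv_eq_one.mp h)

end Pool.Agent.Helper26.SK.G
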